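import Pool.Agent.X46.AP.Pres

/-!
# Maximal minimal presentations and unique factorization in Apéry sets

For all `e, m` with `e = m = 1` or `2 ≤ e ≤ m` there is a numerical semigroup `S` of embedding
dimension `e` and multiplicity `m` for which the number of minimal relations is the largest possible
(for these `e` and `m`) and all elements of the Apéry set have exactly one factorization.

Proof. Let `m, n_1, ..., n_d` be the minimal generators of a numerical semigroup `T` and let
`n'_i = N n_i + m m^(i-1)` with `N = m^(d+1) + 1`. Then `m, n'_1, ..., n'_d` are the minimal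
generators of a numerical semigroup `S`, and all elements of the Apéry set of `S` have only one
factorization. Let `Λ ⊆ ℕ^d` be the set of the factorizations of the elements of the Apéry set of
`S`, a down-set. The minimal elements of `ℕ^d \ Λ` give a presentation of `T`, so the number of
minimal relations of `T` is at most the number of these corners, and this is the number of minimal
relations of `S`.
-/

set_option autoImplicit false

open Finset Pool.Agent.X46.AP

namespace Pool.Agent.Results.MP_e1d67a_co.UniqueFactorization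

/-- A numerical semigroup: an additive submonoid of the naturals with finite complement. -/
def IsNumericalSemigroup (S : AddSubmonoid ℕ) : Prop := {n : ℕ | n ∉ S}.Finite

/-- `g` lists the minimal generators of `S` in increasing order, so `e` is the embedding dimension
of `S`. -/
structure IsMinimalGenerators {e : ℕ} (S : AddSubmonoid ℕ) (g : Fin e → ℕ) : Prop where
  strictMono : StrictMono g
  closure_eq : AddSubmonoid.closure (Set.range g) = S
  minimal : ∀ i : Fin e, g i ∉ AddSubmonoid.closure (g '' {j : Fin e | j ≠ i})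

/-- `m` is the multiplicity of `S`: the least nonzero element. -/
def IsMultiplicity (S : AddSubmonoid ℕ) (m : ℕ) : Prop := IsLeast {n | n ∈ S ∧ n ≠ 0} m

/-- The Apéry set of `S` with respect to `m`: all `n ∈ S` with `n - m ∉ S`. -/
def apery (S : AddSubmonoid ℕ) (m : ℕ) : Set ℕ := {n | n ∈ S ∧ ∀ k ∈ S, k + m ≠ n}

/-- The set of relations `R` generates the congruence `{(a, b) : φ a = φ b}`, where
`φ a = ∑ i, a i * g i`. -/
def IsPresentation {e : ℕ} (g : Fin e → ℕ) (R : Set ((Fin e → ℕ) × (Fin e → ℕ))) : Prop :=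
  ∀ a b : Fin e → ℕ,
    (addConGen (fun x y => (x, y) ∈ R)) a b ↔ ∑ i, a i * g i = ∑ i, b i * g i

/-- `η`: the least cardinality of a presentation, which is the cardinality of all minimal
presentations. -/
noncomputable def eta {e : ℕ} (g : Fin e → ℕ) : ℕ∞ :=
  ⨅ R : {R : Set ((Fin e → ℕ) × (Fin e → ℕ)) // IsPresentation g R}, (R.1).encard

theorem eta_eq {e : ℕ} (g : Fin e → ℕ) : eta g = numRelations g := rfl

theorem mem_closure_range {e : ℕ} (g : Fin e → ℕ) (x : ℕ) :
    x ∈ AddSubmonoid.closure (Set.range g) ↔ ∃ a : Fin e → ℕ, ∑ i, a i * g i = x := by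
  constructor
  · intro h
    induction h using AddSubmonoid.closure_induction with
    | mem y hy =>
      obtain ⟨i, rfl⟩ := hy
      refine ⟨Pi.single i 1, ?_⟩
      rw [sum_eq_single i]
      · simp
      · intro j _ hj
        simp [Pi.single_eq_of_ne hj]
      · simp
    | zero => exact ⟨0, by simp⟩
    | add x y _ _ hx hy =>
      obtain ⟨a, rfl⟩ := hx
      obtain ⟨b, rfl⟩ := hy
      exact ⟨a + b, by simp [add_mul, sum_add_distrib]⟩
  · rintro ⟨a, rfl⟩
    refine sum_mem fun i _ => ?_
    rw [← smul_eq_mul]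
    exact AddSubmonoid.nsmul_mem _ (AddSubmonoid.subset_closure (Set.mem_range_self i)) _

theorem mem_closure_image {e : ℕ} (g : Fin e → ℕ) (s : Set (Fin e)) (x : ℕ) :
    x ∈ AddSubmonoid.closure (g '' s) ↔ ∃ a : Fin e → ℕ, (∀ i, i ∉ s → a i = 0) ∧
      ∑ i, a i * g i = x := by
  constructor
  · intro h
    induction h using AddSubmonoid.closure_induction with
    | mem y hy =>
      obtain ⟨i, hi, rfl⟩ := hy
      refine ⟨Pi.single i 1, ?_, ?_⟩
      · intro j hj
        have : j ≠ i := by rintro rfl; exact hj hi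
        simp [Pi.single_eq_of_ne this]
      · rw [sum_eq_single i]
        · simp
        · intro j _ hj
          simp [Pi.single_eq_of_ne hj]
        · simp
    | zero => exact ⟨0, by simp, by simp⟩
    | add x y _ _ hx hy =>
      obtain ⟨a, ha, rfl⟩ := hx
      obtain ⟨b, hb, rfl⟩ := hy
      exact ⟨a + b, fun i hi => by simp [ha i hi, hb i hi], by simp [add_mul, sum_add_distrib]⟩
  · rintro ⟨a, ha, rfl⟩
    refine sum_mem fun i _ => ?_
    by_cases hi : i ∈ s
    · rw [← smul_eq_mul]
      exact AddSubmonoid.nsmul_mem _ (AddSubmonoid.subset_closure (Set.mem_image_of_mem g hi)) _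
    · rw [ha i hi, zero_mul]
      exact zero_mem _

theorem mem_iff {d m : ℕ} {g : Fin (d + 1) → ℕ} (h0 : g 0 = m) (x : ℕ) :
    x ∈ AddSubmonoid.closure (Set.range g) ↔ Mem m (Fin.tail g) x := by
  rw [mem_closure_range]
  constructor
  · rintro ⟨a, rfl⟩
    exact ⟨a 0, Fin.tail a, by rw [val_eq, h0]⟩
  · rintro ⟨t, a, rfl⟩
    exact ⟨Fin.cons t a, by rw [val_eq, h0, Fin.cons_zero, Fin.tail_cons]⟩

/-- the perturbed generators -/
def pg {d : ℕ} (g : Fin (d + 1) → ℕ) : Fin (d + 1) → ℕ := Fin.cons (g 0) (pert (g 0) (Fin.tail g))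

theorem mult_eq {d m : ℕ} {S : AddSubmonoid ℕ} {g : Fin (d + 1) → ℕ}
    (hg : IsMinimalGenerators S g) (hm : IsMultiplicity S m) : g 0 = m := by
  have hS : ∀ i, g i ∈ S := fun i => by
    rw [← hg.closure_eq]
    exact AddSubmonoid.subset_closure ⟨i, rfl⟩
  have hne : ∀ i, g i ≠ 0 := by
    intro i h
    apply hg.minimal i
    rw [h]
    exact zero_mem _
  apply le_antisymm
  · have h1 := hm.1.1
    rw [← hg.closure_eq, mem_closure_range] at h1
    obtain ⟨a, ha⟩ := h1
    obtain ⟨i, hi⟩ : ∃ i, a i ≠ 0 := by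
      by_contra hc
      push Not at hc
      apply hm.1.2
      rw [← ha]
      simp [hc]
    calc g 0 ≤ g i := hg.strictMono.monotone (Fin.zero_le i)
      _ ≤ a i * g i := Nat.le_mul_of_pos_left _ (by omega)
      _ ≤ ∑ i, a i * g i := single_le_sum (f := fun i => a i * g i) (fun _ _ => Nat.zero_le _)
          (mem_univ i)
      _ = m := ha
  · exact hm.2 ⟨hS 0, hne 0⟩

theorem pg_strictMono {d : ℕ} {g : Fin (d + 1) → ℕ} (hg : StrictMono g) (h2 : 2 ≤ g 0) :
    StrictMono (pg g) := by
  have hN : ∀ k : ℕ, k < d → g 0 * (g 0) ^ k < NN d (g 0) := by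
    intro k hk
    unfold NN
    have : (g 0) ^ (k + 1) ≤ (g 0) ^ (d + 1) := Nat.pow_le_pow_right (by omega) (by omega)
    calc g 0 * (g 0) ^ k = (g 0) ^ (k + 1) := by ring
      _ < (g 0) ^ (d + 1) + 1 := by omega
  intro i j hij
  induction j using Fin.cases with
  | zero => exact absurd hij (Fin.not_lt_zero i)
  | succ j' =>
    induction i using Fin.cases with
    | zero =>
      simp only [pg, Fin.cons_zero, Fin.cons_succ, pert]
      have h3 : g 0 < Fin.tail g j' := hg (Fin.succ_pos j')
      have h4 : Fin.tail g j' ≤ NN d (g 0) * Fin.tail g j' :=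
        Nat.le_mul_of_pos_left _ (by unfold NN; omega)
      omega
    | succ i' =>
      simp only [pg, Fin.cons_succ, pert]
      have h3 : Fin.tail g i' + 1 ≤ Fin.tail g j' := hg hij
      have h4 : NN d (g 0) * (Fin.tail g i' + 1) ≤ NN d (g 0) * Fin.tail g j' :=
        Nat.mul_le_mul_left _ h3
      have h5 := hN i'.1 i'.2
      have h6 : NN d (g 0) * (Fin.tail g i' + 1) = NN d (g 0) * Fin.tail g i' + NN d (g 0) := by
        ring
      omega

theorem pg_minimal {d : ℕ} {S : AddSubmonoid ℕ} {g : Fin (d + 1) → ℕ}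
    (hg : IsMinimalGenerators S g) (h2 : 2 ≤ g 0) :
    IsMinimalGenerators (AddSubmonoid.closure (Set.range (pg g))) (pg g) := by
  have hmono := pg_strictMono hg.strictMono h2
  refine ⟨hmono, rfl, ?_⟩
  intro i hi
  rw [mem_closure_image] at hi
  obtain ⟨a, ha0, ha⟩ := hi
  have hai : a i = 0 := ha0 i (by simp)
  rw [val_eq] at ha
  have ht : Fin.tail (pg g) = pert (g 0) (Fin.tail g) := Fin.tail_cons _ _
  have h0 : pg g 0 = g 0 := rfl
  rw [ht, h0] at ha
  revert hai ha
  refine Fin.cases ?_ (fun i' => ?_) i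
  · intro ha hai
    rw [hai, zero_mul, zero_add, h0] at ha
    obtain ⟨j, hj⟩ : ∃ j, Fin.tail a j ≠ 0 := by
      by_contra hc
      push Not at hc
      have : wt (pert (g 0) (Fin.tail g)) (Fin.tail a) = 0 := by
        unfold wt
        simp [hc]
      omega
    have h3 : pert (g 0) (Fin.tail g) j ≤ wt (pert (g 0) (Fin.tail g)) (Fin.tail a) :=
      (Nat.le_mul_of_pos_left _ (by omega)).trans
        (single_le_sum (f := fun i => Fin.tail a i * pert (g 0) (Fin.tail g) i)
          (fun _ _ => Nat.zero_le _) (mem_univ j))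
    have h4 : pg g 0 < pg g j.succ := hmono (Fin.succ_pos j)
    simp only [pg, Fin.cons_zero, Fin.cons_succ] at h4
    omega
  · intro ha hai
    have h5 : pg g i'.succ = pert (g 0) (Fin.tail g) i' := rfl
    rw [h5] at ha
    have hmod : wt (Fin.tail g) (Fin.tail a) ≡ Fin.tail g i' [MOD g 0] := by
      have e1 := wt_pert_modEq (g 0) (Fin.tail g) (Fin.tail a)
      have e2 := wt_pert_modEq (g 0) (Fin.tail g) (Pi.single i' 1)
      rw [wt_single, wt_single, one_mul, one_mul] at e2
      have e3 : wt (pert (g 0) (Fin.tail g)) (Fin.tail a) ≡ pert (g 0) (Fin.tail g) i' [MOD g 0] := by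
        rw [← ha]
        simp [Nat.ModEq, Nat.add_mod]
      exact (e1.symm.trans e3).trans e2
    have hle : wt (Fin.tail g) (Fin.tail a) ≤ Fin.tail g i' := by
      have e4 := ord (a := Pi.single i' 1) (b := Fin.tail a) (n := Fin.tail g) (m := g 0)
        (by rw [wt_single, one_mul]; exact hmod.symm)
        (by
          have : dl (g 0) (Pi.single i' 1 : Fin d → ℕ) < (g 0) ^ d :=
            dl_lt (by omega) _ (by
              intro j
              by_cases hj : j = i'
              · subst hj; simp; omega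
              · simp [Pi.single_eq_of_ne hj]; omega)
          have h6 : (g 0) ^ d ≤ (g 0) ^ (d + 1) := Nat.pow_le_pow_right (by omega) (by omega)
          unfold NN
          omega)
        (by rw [wt_single, one_mul]; omega)
      rwa [wt_single, one_mul] at e4
    obtain ⟨k, hk⟩ := (Nat.modEq_iff_dvd' hle).1 hmod
    apply hg.minimal i'.succ
    rw [mem_closure_image]
    refine ⟨Fin.cons k (Fin.tail a), ?_, ?_⟩
    · intro j hj
      have hj' : j = i'.succ := by simpa using hj
      subst hj'
      rw [Fin.cons_succ]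
      exact hai
    · rw [val_eq, Fin.cons_zero, Fin.tail_cons]
      have h7 : g i'.succ = Fin.tail g i' := rfl
      rw [h7, mul_comm k (g 0)]
      omega

theorem pg_mult {d : ℕ} {g : Fin (d + 1) → ℕ} (hg : StrictMono g) (h2 : 2 ≤ g 0) :
    IsMultiplicity (AddSubmonoid.closure (Set.range (pg g))) (g 0) := by
  have hmono := pg_strictMono hg h2
  refine ⟨⟨AddSubmonoid.subset_closure ⟨0, rfl⟩, by omega⟩, ?_⟩
  rintro x ⟨hx, hx0⟩
  rw [mem_closure_range] at hx
  obtain ⟨a, rfl⟩ := hx
  obtain ⟨i, hi⟩ : ∃ i, a i ≠ 0 := by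
    by_contra hc
    push Not at hc
    apply hx0
    simp [hc]
  calc g 0 = pg g 0 := rfl
    _ ≤ pg g i := hmono.monotone (Fin.zero_le i)
    _ ≤ a i * pg g i := Nat.le_mul_of_pos_left _ (by omega)
    _ ≤ ∑ i, a i * pg g i := single_le_sum (f := fun i => a i * pg g i)
        (fun _ _ => Nat.zero_le _) (mem_univ i)

theorem pg_num {d : ℕ} {S : AddSubmonoid ℕ} {g : Fin (d + 1) → ℕ} (hS : IsNumericalSemigroup S)
    (hg : IsMinimalGenerators S g) (h2 : 2 ≤ g 0) :
    IsNumericalSemigroup (AddSubmonoid.closure (Set.range (pg g))) := by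
  -- every residue class contains an element
  have key : ∀ r : ℕ, ∃ x, x ∈ AddSubmonoid.closure (Set.range (pg g)) ∧ x ≡ r [MOD g 0] := by
    intro r
    obtain ⟨y, hy, hyS⟩ : ∃ y, y ≡ r [MOD g 0] ∧ y ∈ S := by
      by_contra hc
      push Not at hc
      have : Set.range (fun k : ℕ => r + k * g 0) ⊆ {n | n ∉ S} := by
        rintro _ ⟨k, rfl⟩
        apply hc
        simp [Nat.ModEq]
      refine (Set.infinite_range_of_injective ?_) (hS.subset this)
      intro k l hkl
      simp only at hkl
      exact Nat.eq_of_mul_eq_mul_right (by omega : 0 < g 0) (by omega)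
    rw [← hg.closure_eq, mem_closure_range] at hyS
    obtain ⟨a, rfl⟩ := hyS
    refine ⟨∑ i, a i * pg g i, (mem_closure_range _ _).2 ⟨a, rfl⟩, ?_⟩
    refine Nat.ModEq.trans ?_ hy
    rw [val_eq, val_eq]
    exact Nat.ModEq.add_left _ (wt_pert_modEq _ _ _)
  choose f hf hf' using key
  refine (Set.finite_Iio (∑ r ∈ range (g 0), f r)).subset ?_
  intro x hx
  simp only [Set.mem_ofPred_eq] at hx
  simp only [Set.mem_Iio]
  by_contra hc
  push Not at hc
  apply hx
  have hr : x % g 0 ∈ range (g 0) := mem_range.2 (Nat.mod_lt _ (by omega))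
  have h3 : f (x % g 0) ≤ x :=
    (single_le_sum (f := f) (fun _ _ => Nat.zero_le _) hr).trans hc
  have h4 : f (x % g 0) ≡ x [MOD g 0] := (hf' _).trans (Nat.mod_modEq _ _)
  obtain ⟨k, hk⟩ := (Nat.modEq_iff_dvd' h3).1 h4
  have h5 : x = f (x % g 0) + k • g 0 := by
    rw [smul_eq_mul, mul_comm]
    omega
  rw [h5]
  exact add_mem (hf _)
    (AddSubmonoid.nsmul_mem _ (AddSubmonoid.subset_closure (Set.mem_range_self (f := pg g) 0)) _)

theorem pg_apery {d : ℕ} {g : Fin (d + 1) → ℕ} (h2 : 2 ≤ g 0) (n : ℕ)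
    (hn : n ∈ apery (AddSubmonoid.closure (Set.range (pg g))) (g 0)) :
    ∃! a : Fin (d + 1) → ℕ, ∑ i, a i * pg g i = n := by
  have hA : Ap (g 0) (pert (g 0) (Fin.tail g)) n := by
    obtain ⟨h3, h4⟩ := hn
    refine ⟨(mem_iff (g := pg g) (m := g 0) rfl _).1 h3, fun y hy => h4 y ?_⟩
    exact (mem_iff (g := pg g) (m := g 0) rfl _).2 hy
  obtain ⟨b, hb⟩ := hA.exists_wt
  have hv : ∀ a : Fin (d + 1) → ℕ, ∑ i, a i * pg g i =
      a 0 * g 0 + wt (pert (g 0) (Fin.tail g)) (Fin.tail a) := fun a => val_eq _ _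
  refine ⟨Fin.cons 0 b, ?_, ?_⟩
  · show _ = _
    rw [hv, Fin.cons_zero, Fin.tail_cons, zero_mul, zero_add, hb]
  · intro a ha
    rw [hv] at ha
    have ha0 : a 0 = 0 := by
      by_contra hc
      obtain ⟨j, hj⟩ : ∃ j, a 0 = j + 1 := ⟨a 0 - 1, by omega⟩
      refine hA.2 (j * g 0 + wt (pert (g 0) (Fin.tail g)) (Fin.tail a)) ⟨j, _, rfl⟩ ?_
      rw [← ha, hj]
      ring
    rw [ha0, zero_mul, zero_add] at ha
    have hsb : Stair (g 0) (pert (g 0) (Fin.tail g)) b := by
      unfold Stair
      rw [← hb]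
      exact hA
    have hsa : Stair (g 0) (pert (g 0) (Fin.tail g)) (Fin.tail a) := by
      unfold Stair
      rw [ha]
      exact hA
    have := stair_inj (by omega) hsa hsb (by rw [ha, hb])
    funext i
    refine Fin.cases (by rw [ha0, Fin.cons_zero]) (fun k => ?_) i
    rw [Fin.cons_succ]
    exact congrFun this k

/-- the number of relations does not decrease -/
theorem eta_le_pg {d : ℕ} {g : Fin (d + 1) → ℕ} (h2 : 2 ≤ g 0) : eta g ≤ eta (pg g) := by
  rw [eta_eq, eta_eq]
  exact (upper h2 g rfl).trans (lower h2 rfl (Fin.tail_cons _ _))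

theorem eta_le {d : ℕ} {g : Fin (d + 1) → ℕ} (h2 : 2 ≤ g 0) :
    eta g ≤ (((g 0 + 1) ^ d : ℕ) : ℕ∞) :=
  (upper h2 g rfl).trans (corners_encard_le (by omega) _)

/-- there is a numerical semigroup of embedding dimension `d + 1` and multiplicity `m` -/
theorem exists_semigroup {d m : ℕ} (hd : 1 ≤ d) (hm : d + 1 ≤ m) :
    ∃ (S : AddSubmonoid ℕ) (g : Fin (d + 1) → ℕ), IsNumericalSemigroup S ∧
      IsMinimalGenerators S g ∧ IsMultiplicity S m := by
  let g : Fin (d + 1) → ℕ := fun i => m + i
  have hmono : StrictMono g := fun i j h => by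
    simp only [g]
    have : (i : ℕ) < j := h
    omega
  refine ⟨AddSubmonoid.closure (Set.range g), g, ?_, ⟨hmono, rfl, ?_⟩, ?_⟩
  · -- all numbers from `m * m` on belong to the semigroup
    refine (Set.finite_Iio (m * m)).subset ?_
    intro x hx
    simp only [Set.mem_ofPred_eq] at hx
    simp only [Set.mem_Iio]
    by_contra hc
    push Not at hc
    apply hx
    have h1 : m ∈ AddSubmonoid.closure (Set.range g) := AddSubmonoid.subset_closure ⟨0, by simp [g]⟩
    have h2 : m + 1 ∈ AddSubmonoid.closure (Set.range g) :=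
      AddSubmonoid.subset_closure ⟨⟨1, by omega⟩, by simp [g]⟩
    have h3 : x / m ≥ m := (Nat.le_div_iff_mul_le (by omega)).2 hc
    have h4 : x % m < m := Nat.mod_lt _ (by omega)
    have h5 : x = (x % m) • (m + 1) + (x / m - x % m) • m := by
      rw [smul_eq_mul, smul_eq_mul]
      obtain ⟨q, hq⟩ : ∃ q, x / m = x % m + q := ⟨x / m - x % m, by omega⟩
      have h6 := Nat.div_add_mod x m
      have h7 : x / m - x % m = q := by omega
      rw [h7]
      calc x = m * (x / m) + x % m := h6.symm
        _ = m * (x % m + q) + x % m := by rw [hq]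
        _ = x % m * (m + 1) + q * m := by ring
    rw [h5]
    exact add_mem (AddSubmonoid.nsmul_mem _ h2 _) (AddSubmonoid.nsmul_mem _ h1 _)
  · intro i hi
    rw [mem_closure_image] at hi
    obtain ⟨a, ha0, ha⟩ := hi
    have hai : a i = 0 := ha0 i (by simp)
    have hlow : (∑ j, a j) * m ≤ g i := by
      rw [← ha, sum_mul]
      exact sum_le_sum fun j _ => Nat.mul_le_mul_left _ (by simp [g])
    have hgi : g i < 2 * m := by
      simp only [g]
      have := i.2
      omega
    have hs : ∑ j, a j < 2 := by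
      by_contra hc
      push Not at hc
      have : 2 * m ≤ (∑ j, a j) * m := Nat.mul_le_mul_right _ hc
      omega
    obtain ⟨j, hj⟩ : ∃ j, a j ≠ 0 := by
      by_contra hc
      push Not at hc
      have : g i = 0 := by
        rw [← ha]
        simp [hc]
      simp only [g] at this
      omega
    have hone : ∀ k, k ≠ j → a k = 0 := by
      intro k hk
      have : a j + a k ≤ ∑ j, a j := by
        rw [← Finset.sum_pair (f := a) (Ne.symm hk)]
        exact sum_le_sum_of_subset (subset_univ _)
      omega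
    have haj : a j = 1 := by
      have : a j ≤ ∑ j, a j := single_le_sum (fun _ _ => Nat.zero_le _) (mem_univ j)
      omega
    have : ∑ k, a k * g k = g j := by
      rw [sum_eq_single j]
      · rw [haj, one_mul]
      · intro k _ hk
        rw [hone k hk, zero_mul]
      · simp
    have hij : g j = g i := by rw [← this, ha]
    have := hmono.injective hij
    subst this
    exact hj hai
  · refine ⟨⟨AddSubmonoid.subset_closure ⟨0, by simp [g]⟩, by omega⟩, ?_⟩
    rintro x ⟨hx, hx0⟩
    rw [mem_closure_range] at hx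
    obtain ⟨a, rfl⟩ := hx
    obtain ⟨i, hi⟩ : ∃ i, a i ≠ 0 := by
      by_contra hc
      push Not at hc
      apply hx0
      simp [hc]
    calc m ≤ g i := by simp [g]
      _ ≤ a i * g i := Nat.le_mul_of_pos_left _ (by omega)
      _ ≤ ∑ i, a i * g i := single_le_sum (f := fun i => a i * g i)
          (fun _ _ => Nat.zero_le _) (mem_univ i)

/-- the case of one generator -/
theorem one_case : ∃ (S : AddSubmonoid ℕ) (g : Fin 1 → ℕ), IsNumericalSemigroup S ∧
    IsMinimalGenerators S g ∧ IsMultiplicity S 1 ∧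
    (∀ n ∈ apery S 1, ∃! a : Fin 1 → ℕ, ∑ i, a i * g i = n) ∧ eta g ≠ ⊤ ∧
    ∀ (T : AddSubmonoid ℕ) (h : Fin 1 → ℕ), IsNumericalSemigroup T → IsMinimalGenerators T h →
      IsMultiplicity T 1 → eta h ≤ eta g := by
  have hcl : AddSubmonoid.closure (Set.range (fun _ : Fin 1 => 1)) = (⊤ : AddSubmonoid ℕ) := by
    rw [eq_top_iff]
    intro x _
    rw [mem_closure_range]
    exact ⟨fun _ => x, by simp⟩
  have hz : ∀ h : Fin 1 → ℕ, h 0 = 1 → eta h = 0 := by
    intro h h0
    refine le_antisymm ?_ bot_le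
    refine (iInf_le _ ⟨∅, ?_⟩).trans (by simp)
    intro a b
    constructor
    · intro hab
      have hle : addConGen (fun x y => (x, y) ∈ (∅ : Set ((Fin 1 → ℕ) × (Fin 1 → ℕ)))) ≤ ⊥ := by
        rw [AddCon.addConGen_le]
        intro x y hxy
        simp at hxy
      have : a = b := hle hab
      rw [this]
    · intro hab
      have : a = b := by
        funext i
        have hi : i = 0 := Subsingleton.elim _ _
        subst hi
        simpa [h0] using hab
      rw [this]
      exact AddCon.refl _ _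
  refine ⟨⊤, fun _ => 1, ?_, ⟨?_, hcl, ?_⟩, ?_, ?_, ?_, ?_⟩
  · simp [IsNumericalSemigroup]
  · intro i j hij
    exact absurd hij (by rw [Subsingleton.elim i j]; exact lt_irrefl _)
  · intro i hi
    rw [mem_closure_image] at hi
    obtain ⟨a, ha0, ha⟩ := hi
    have : a i = 0 := ha0 i (by simp)
    have h0 : i = 0 := Subsingleton.elim _ _
    subst h0
    simp [this] at ha
  · exact ⟨⟨AddSubmonoid.mem_top _, by omega⟩, fun x hx => Nat.one_le_iff_ne_zero.2 hx.2⟩
  · rintro n ⟨-, hn⟩
    have h0 : n = 0 := by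
      by_contra hc
      exact hn (n - 1) (AddSubmonoid.mem_top _) (by omega)
    subst h0
    refine ⟨0, by simp, ?_⟩
    intro a ha
    funext i
    have hi : i = 0 := Subsingleton.elim _ _
    subst hi
    simpa using ha
  · rw [hz (fun _ => 1) rfl]
    simp
  · intro T h _ hh hT
    rw [hz (fun _ => 1) rfl, hz h (mult_eq hh hT)]

/-- For all `e, m` with `e = m = 1` or `2 ≤ e ≤ m` there is a numerical semigroup `S` with
embedding dimension `e` and multiplicity `m` such that every element of the Apéry set of `S` has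
exactly one factorization and the number `η` of minimal relations of `S` is finite and is the
largest one among all numerical semigroups with embedding dimension `e` and multiplicity `m`. -/
theorem result (e m : ℕ) (hem : (e = 1 ∧ m = 1) ∨ (2 ≤ e ∧ e ≤ m)) :
    ∃ (S : AddSubmonoid ℕ) (g : Fin e → ℕ), IsNumericalSemigroup S ∧
      IsMinimalGenerators S g ∧ IsMultiplicity S m ∧
      (∀ n ∈ apery S m, ∃! a : Fin e → ℕ, ∑ i, a i * g i = n) ∧ eta g ≠ ⊤ ∧
      ∀ (T : AddSubmonoid ℕ) (h : Fin e → ℕ), IsNumericalSemigroup T → IsMinimalGenerators T h →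
        IsMultiplicity T m → eta h ≤ eta g := by
  rcases hem with ⟨rfl, rfl⟩ | ⟨he, hem⟩
  · exact one_case
  obtain ⟨d, rfl⟩ : ∃ d, e = d + 1 := ⟨e - 1, by omega⟩
  -- the set of values
  let V : Set ℕ∞ := {x | ∃ (T : AddSubmonoid ℕ) (h : Fin (d + 1) → ℕ), IsNumericalSemigroup T ∧
    IsMinimalGenerators T h ∧ IsMultiplicity T m ∧ x = eta h}
  have hne : V.Nonempty := by
    obtain ⟨S, g, h1, h2, h3⟩ := exists_semigroup (d := d) (m := m) (by omega) hem
    exact ⟨_, S, g, h1, h2, h3, rfl⟩
  have hbd : ∀ x ∈ V, x ≤ (((m + 1) ^ d : ℕ) : ℕ∞) := by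
    rintro x ⟨T, h, h1, h2, h3, rfl⟩
    have h0 := mult_eq h2 h3
    have := eta_le (g := h) (by omega)
    rwa [h0] at this
  have : Nonempty V := hne.to_subtype
  have hlt : sSup V < ⊤ := lt_of_le_of_lt (sSup_le hbd) (ENat.natCast_lt_top _)
  obtain ⟨T, h, hT1, hT2, hT3, hT⟩ := ENat.sSup_mem_of_nonempty_of_lt_top hlt
  have h0 := mult_eq hT2 hT3
  have h2 : 2 ≤ h 0 := by omega
  refine ⟨AddSubmonoid.closure (Set.range (pg h)), pg h, pg_num hT1 hT2 h2, pg_minimal hT2 h2, ?_,
    ?_, ?_, ?_⟩
  · have := pg_mult hT2.strictMono h2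
    rwa [h0] at this
  · intro n hn
    rw [← h0] at hn
    exact pg_apery h2 n hn
  · have hmem : eta (pg h) ∈ V := ⟨_, pg h, pg_num hT1 hT2 h2, pg_minimal hT2 h2, by
      have := pg_mult hT2.strictMono h2
      rwa [h0] at this, rfl⟩
    exact ne_of_lt (lt_of_le_of_lt (hbd _ hmem) (ENat.natCast_lt_top _))
  · intro T' h' h1 h3 h4
    calc eta h' ≤ sSup V := le_sSup ⟨T', h', h1, h3, h4, rfl⟩
      _ = eta h := hT
      _ ≤ eta (pg h) := eta_le_pg h2

end Pool.Agent.Results.MP_e1d67a_co.UniqueFactorization
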